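import Pool.Agent.H316.EM.Stm2

/-!
# EM FINAL: the final commutative algebra contradiction
-/

set_option autoImplicit false

namespace Pool.Agent.H114.EMF

open Pool.Agent.H316.EM

theorem thpow (i : ℕ) :
    (th ^ (i + 1)) b0 = Multiplicative.ofAdd ((Nat.fib i : ℤ), (Nat.fib (i + 1) : ℤ)) := by
  induction i with
  | zero =>
    simp only [zero_add, pow_one, Nat.fib_zero, Nat.fib_one]
    rfl
  | succ i ih =>
    rw [pow_succ', MulAut.mul_apply, ih, Nat.fib_add_two]
    push_cast
    rfl

/-- the projection of `ℤ²` with kernel `ℤ (u, v)` (for coprime `u`, `v`) -/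
def pr (u v : ℤ) : B →* Multiplicative ℤ :=
  AddMonoidHom.toMultiplicative
    { toFun := fun p : ℤ × ℤ => v * p.1 - u * p.2
      map_zero' := by simp
      map_add' := fun p q => by
        simp only [Prod.fst_add, Prod.snd_add]
        ring }

theorem pr_apply (u v : ℤ) (p : B) :
    Multiplicative.toAdd (pr u v p) =
      v * (Multiplicative.toAdd p).1 - u * (Multiplicative.toAdd p).2 := rfl

/-- the induced ring homomorphism -/
noncomputable def ph (u v : ℤ) : FB →+* MonoidAlgebra (ZMod 2) (Multiplicative ℤ) :=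
  MonoidAlgebra.mapDomainRingHom (ZMod 2) (pr u v)

theorem ph_single (u v : ℤ) (b : B) (r : ZMod 2) :
    ph u v (MonoidAlgebra.single b r) = MonoidAlgebra.single (pr u v b) r := by
  simp [ph]

theorem ph_ck (i : ℕ) : ph (Nat.fib i) (Nat.fib (i + 1)) (ck (i + 1)) = 0 := by
  rw [ck, map_sub, map_one, thpow, sub_eq_zero]
  show _ = ph _ _ (MonoidAlgebra.single _ 1)
  rw [ph_single]
  have : pr (Nat.fib i) (Nat.fib (i + 1))
      (Multiplicative.ofAdd ((Nat.fib i : ℤ), (Nat.fib (i + 1) : ℤ))) = 1 := by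
    apply Multiplicative.toAdd.injective
    rw [pr_apply]
    simp only [toAdd_ofAdd, toAdd_one]
    ring
  rw [this]
  rfl

/-- a nonzero element of `FB` is killed by only finitely many of the projections -/
theorem support_arg (h : FB) (hh : h ≠ 0)
    (hz : ∀ i : ℕ, ph (Nat.fib i) (Nat.fib (i + 1)) h = 0) : False := by
  classical
  obtain ⟨s, hs⟩ : ∃ s, s ∈ h.coeff.support := by
    by_contra hcon
    push Not at hcon
    apply hh
    rw [← MonoidAlgebra.coeff_eq_zero]
    ext x
    have := hcon x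
    rw [Finsupp.notMem_support_iff] at this
    simpa using this
  -- a bound for the second coordinates
  obtain ⟨N, hN⟩ : ∃ N : ℕ, ∀ s' ∈ h.coeff.support,
      ((Multiplicative.toAdd s).2 - (Multiplicative.toAdd s').2).natAbs < N := by
    refine ⟨(h.coeff.support.sup fun s' =>
      ((Multiplicative.toAdd s).2 - (Multiplicative.toAdd s').2).natAbs) + 1, fun s' hs' => ?_⟩
    exact Nat.lt_succ_of_le (Finset.le_sup (f := fun s' : B =>
        ((Multiplicative.toAdd s).2 - (Multiplicative.toAdd s').2).natAbs) hs')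
  obtain ⟨i, hi⟩ : ∃ i : ℕ, N ≤ Nat.fib (i + 1) :=
    ⟨N + 4, le_trans (by omega) (Nat.le_fib_self (n := N + 4 + 1) (by omega))⟩
  have h1 := hz i
  set π := pr (Nat.fib i) (Nat.fib (i + 1)) with hπ
  -- the coefficient at the image of `s`
  have h2 : (Finsupp.mapDomain π h.coeff) (π s) =
      ∑ s' ∈ h.coeff.support, if π s' = π s then h.coeff s' else 0 := by
    rw [Finsupp.mapDomain, Finsupp.sum_apply, Finsupp.sum]
    exact Finset.sum_congr rfl fun s' _ => Finsupp.single_apply
  have h3 : (Finsupp.mapDomain π h.coeff) (π s) = 0 := by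
    have h4 : (ph (Nat.fib i) (Nat.fib (i + 1)) h).coeff = Finsupp.mapDomain π h.coeff := rfl
    rw [← h4, h1]
    rfl
  rw [h3] at h2
  obtain ⟨s', hs', hne, heq⟩ : ∃ s' ∈ h.coeff.support, s' ≠ s ∧ π s' = π s := by
    by_contra hcon
    push Not at hcon
    rw [Finset.sum_eq_single s (fun s' hs' hne => if_neg (hcon s' hs' hne))
      (fun hn => absurd hs hn), if_pos rfl] at h2
    rw [Finsupp.mem_support_iff] at hs
    exact hs h2.symm
  have h5 : (Nat.fib (i + 1) : ℤ) * (Multiplicative.toAdd s').1 -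
      (Nat.fib i : ℤ) * (Multiplicative.toAdd s').2 =
      (Nat.fib (i + 1) : ℤ) * (Multiplicative.toAdd s).1 -
      (Nat.fib i : ℤ) * (Multiplicative.toAdd s).2 := by
    have := congrArg Multiplicative.toAdd heq
    rwa [hπ, pr_apply, pr_apply] at this
  have h6 : (Nat.fib (i + 1) : ℤ) * ((Multiplicative.toAdd s).1 - (Multiplicative.toAdd s').1) =
      (Nat.fib i : ℤ) * ((Multiplicative.toAdd s).2 - (Multiplicative.toAdd s').2) := by
    linarith
  have hco : IsCoprime (Nat.fib (i + 1) : ℤ) (Nat.fib i : ℤ) := by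
    rw [Int.isCoprime_iff_gcd_eq_one]
    exact_mod_cast (Nat.fib_coprime_fib_succ i).symm
  have h7 : (Nat.fib (i + 1) : ℤ) ∣ (Multiplicative.toAdd s).2 - (Multiplicative.toAdd s').2 :=
    hco.dvd_of_dvd_mul_left ⟨_, h6.symm⟩
  have hpos : 0 < Nat.fib (i + 1) := Nat.fib_pos.2 (Nat.succ_pos i)
  have h8 : (Multiplicative.toAdd s).2 - (Multiplicative.toAdd s').2 = 0 := by
    by_contra hcon
    have h9 := Int.natAbs_dvd_natAbs.2 h7
    have h10 := Nat.le_of_dvd (Int.natAbs_pos.2 hcon) h9
    rw [Int.natAbs_natCast] at h10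
    have := hN s' hs'
    omega
  rw [h8, mul_zero] at h6
  have h11 : (Multiplicative.toAdd s).1 - (Multiplicative.toAdd s').1 = 0 := by
    rcases mul_eq_zero.1 h6 with h | h
    · have : (Nat.fib (i + 1) : ℤ) ≠ 0 := by exact_mod_cast hpos.ne'
      exact absurd h this
    · exact h
  apply hne
  apply Multiplicative.toAdd.injective
  exact Prod.ext (by linarith) (by linarith)

theorem finiteType_FB : Algebra.FiniteType (ZMod 2) FB := by
  have : Monoid.FG B := by
    have : AddMonoid.FG (ℤ × ℤ) := inferInstance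
    exact Monoid.fg_iff_add_fg.2 this
  infer_instance

theorem noeth_FB : IsNoetherianRing FB := by
  have := finiteType_FB
  exact Algebra.FiniteType.isNoetherianRing (ZMod 2) FB

/-- Chevalley: an injective homomorphism of finite type hits all the primes of a nonempty basic
open set. -/
theorem chev {T : Type} [CommRing T] [Algebra (ZMod 2) T] [Algebra.FiniteType (ZMod 2) T]
    (ι : FB →+* T) (hι : Function.Injective ι) :
    ∃ h : FB, h ≠ 0 ∧ ∀ p : Ideal FB, p.IsPrime → h ∉ p →
      ∃ Q : Ideal T, Q.IsPrime ∧ Q.comap ι = p := by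
  have hn := noeth_FB
  have hft : ι.FiniteType := by
    let _ := ι.toAlgebra
    have : IsScalarTower (ZMod 2) FB T := by
      refine IsScalarTower.of_algebraMap_eq' ?_
      exact Subsingleton.elim _ _
    exact Algebra.FiniteType.of_restrictScalars_finiteType (ZMod 2) FB T
  have hfp : ι.FinitePresentation := RingHom.FinitePresentation.of_finiteType.1 hft
  obtain ⟨S, hS⟩ := PrimeSpectrum.exists_constructibleSetData_iff.2
    (PrimeSpectrum.isConstructible_range_comap hfp)
  have hbot : (⟨⊥, Ideal.isPrime_bot⟩ : PrimeSpectrum FB) ∈ Set.range (PrimeSpectrum.comap ι) := by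
    obtain ⟨Q, hQ, hQ2⟩ := Ideal.exists_comap_eq_of_mem_minimalPrimes_of_injective hι
      (⊥ : Ideal FB) (by
        rw [IsDomain.minimalPrimes_eq_singleton_bot]
        rfl)
    exact ⟨⟨Q, hQ⟩, PrimeSpectrum.ext hQ2⟩
  rw [← hS] at hbot
  simp only [PrimeSpectrum.ConstructibleSetData.toSet, Set.mem_iUnion] at hbot
  obtain ⟨C, hC, hC1, hC2⟩ := hbot
  have hf : C.f ≠ 0 := by
    intro h0
    apply hC2
    rw [PrimeSpectrum.mem_zeroLocus, Set.singleton_subset_iff]
    show C.f ∈ (⊥ : Ideal FB)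
    rw [h0]
    exact Ideal.zero_mem _
  have hg : ∀ j, C.g j = 0 := by
    intro j
    rw [PrimeSpectrum.mem_zeroLocus] at hC1
    have : C.g j ∈ (⊥ : Ideal FB) := hC1 ⟨j, rfl⟩
    simpa using this
  refine ⟨C.f, hf, fun p hp hfp => ?_⟩
  have hmem : (⟨p, hp⟩ : PrimeSpectrum FB) ∈ Set.range (PrimeSpectrum.comap ι) := by
    rw [← hS]
    simp only [PrimeSpectrum.ConstructibleSetData.toSet, Set.mem_iUnion]
    refine ⟨C, hC, ?_, ?_⟩
    · rw [PrimeSpectrum.mem_zeroLocus]
      rintro _ ⟨j, rfl⟩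
      rw [hg j]
      exact Ideal.zero_mem _
    · intro hcon
      rw [PrimeSpectrum.mem_zeroLocus, Set.singleton_subset_iff] at hcon
      exact hfp hcon
  obtain ⟨Q, hQ⟩ := hmem
  exact ⟨Q.asIdeal, Q.isPrime, congrArg PrimeSpectrum.asIdeal hQ⟩

end Pool.Agent.H114.EMF

open Pool.Agent.H316.EM Pool.Agent.H114.EMF

theorem Pool.Agent.H114.em_final : Pool.Agent.H316.EM.S_FINAL := by
  intro S _ _ _ ι f hinj hrad
  let T := Localization.Away f
  have : Algebra.FiniteType (ZMod 2) T := inferInstanceAs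
    (Algebra.FiniteType (ZMod 2) (Localization.Away f))
  let j : FB →+* T := (algebraMap S T).comp ι
  have hj : Function.Injective j := by
    rw [injective_iff_map_eq_zero]
    intro x hx
    have hx' : algebraMap S T (ι x) = 0 := hx
    rw [IsLocalization.map_eq_zero_iff (Submonoid.powers f)] at hx'
    obtain ⟨⟨m, n, rfl⟩, hm⟩ := hx'
    exact hinj n x hm
  obtain ⟨h, hh, hp⟩ := chev j hj
  refine support_arg h hh fun i => ?_
  by_contra hcon
  have hprime : (RingHom.ker (ph (Nat.fib i) (Nat.fib (i + 1)))).IsPrime := RingHom.ker_isPrime _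
  obtain ⟨Q, hQ, hQ2⟩ := hp _ hprime (by rwa [RingHom.mem_ker])
  have h1 : j (ck (i + 1)) ∈ Q := by
    rw [← Ideal.mem_comap, hQ2, RingHom.mem_ker]
    exact ph_ck i
  obtain ⟨n, hn⟩ := hrad (i + 1)
  rw [Ideal.mem_span_singleton] at hn
  obtain ⟨c, hc⟩ := hn
  have h2 : (algebraMap S T f) ^ n ∈ Q := by
    rw [← map_pow, hc, map_mul]
    exact Ideal.mul_mem_right _ _ h1
  have h3 : algebraMap S T f ∈ Q := hQ.mem_of_pow_mem n h2
  exact hQ.ne_top (Ideal.eq_top_of_isUnit_mem _ h3 (IsLocalization.Away.algebraMap_isUnit f))
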